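import Pool.Agent.H18.SG.Gr

/-!
# Extensions of 3-connected binary matroids (MP_367fb1_co)

A binary matroid `M` is 3-connected if `M ＼ e` is 3-connected and `e` is neither a loop nor parallel to
another element nor a coloop.
-/

set_option autoImplicit false

namespace Pool.Agent.H18.SG

open Set Submodule

/-- the vectors `v` and, for the new element `none`, the vector `q` -/
def exv {E W : Type} (v : E → W) (q : W) : Option E → W
  | some e => v e
  | none => q

theorem egen_aux {E W : Type} [Finite E] [AddCommGroup W] [Module (ZMod 2) W]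
    [Module.Finite (ZMod 2) W] (v : E → W) (q : W) (hq0 : q ≠ 0) (hqv : ∀ f, q ≠ v f)
    (hqs : q ∈ span (ZMod 2) (range v))
    (hN : ∀ k : ℕ, k = 1 ∨ k = 2 → ∀ X Y : Set E, X ∪ Y = univ → Disjoint X Y →
      (k : ℕ∞) ≤ X.encard → (k : ℕ∞) ≤ Y.encard → k ≤ Module.finrank (ZMod 2)
        (span (ZMod 2) (v '' X) ⊓ span (ZMod 2) (v '' Y) : Submodule (ZMod 2) W))
    (k : ℕ) (hk : k = 1 ∨ k = 2) (X Y : Set (Option E)) (hXY : X ∪ Y = univ) (hd : Disjoint X Y)
    (hX : (k : ℕ∞) ≤ X.encard) (hY : (k : ℕ∞) ≤ Y.encard) (h0 : none ∈ X) :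
    k ≤ Module.finrank (ZMod 2) (span (ZMod 2) (exv v q '' X) ⊓
      span (ZMod 2) (exv v q '' Y) : Submodule (ZMod 2) W) := by
  obtain ⟨X', hX'⟩ : ∃ X' : Set E, X' = some ⁻¹' X := ⟨_, rfl⟩
  obtain ⟨Y', hY'⟩ : ∃ Y' : Set E, Y' = some ⁻¹' Y := ⟨_, rfl⟩
  have hu : X' ∪ Y' = univ := by
    rw [hX', hY', ← preimage_union, hXY, preimage_univ]
  have hdd : Disjoint X' Y' := by
    rw [hX', hY']
    exact hd.preimage _
  have hnY : none ∉ Y := fun h2 => hd.notMem_of_mem_left h0 h2
  have hYe : Y = some '' Y' := by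
    ext o
    constructor
    · intro ho
      cases o with
      | none => exact absurd ho hnY
      | some e => exact ⟨e, by rw [hY']; exact ho, rfl⟩
    · rintro ⟨e, he, rfl⟩
      rw [hY'] at he
      exact he
  have hYc : Y.encard = Y'.encard := by
    rw [hYe, (Option.some_injective E).encard_image]
  have hXe : X = insert none (some '' X') := by
    ext o
    constructor
    · intro ho
      cases o with
      | none => exact mem_insert _ _
      | some e => exact mem_insert_of_mem _ ⟨e, by rw [hX']; exact ho, rfl⟩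
    · rintro (rfl | ⟨e, he, rfl⟩)
      · exact h0
      · rw [hX'] at he
        exact he
  have himg : ∀ Z : Set E, exv v q '' (some '' Z) = v '' Z := by
    intro Z
    rw [image_image]
    rfl
  have hsX : span (ZMod 2) (v '' X') ≤ span (ZMod 2) (exv v q '' X) := by
    rw [← himg]
    exact span_mono (image_mono (by rw [hXe]; exact subset_insert _ _))
  have hsY : span (ZMod 2) (v '' Y') = span (ZMod 2) (exv v q '' Y) := by
    rw [← himg, ← hYe]
  have hq : q ∈ span (ZMod 2) (exv v q '' X) := subset_span ⟨none, h0, rfl⟩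
  have hmem : ∀ P : Submodule (ZMod 2) W, (∀ e, v e ∈ P) → q ∈ P := by
    intro P hP
    refine (span_le.2 ?_) hqs
    rintro _ ⟨e, rfl⟩
    exact hP e
  have hmono : Module.finrank (ZMod 2)
      (span (ZMod 2) (v '' X') ⊓ span (ZMod 2) (v '' Y') : Submodule (ZMod 2) W) ≤
        Module.finrank (ZMod 2) (span (ZMod 2) (exv v q '' X) ⊓ span (ZMod 2) (exv v q '' Y) :
        Submodule (ZMod 2) W) :=
    Submodule.finrank_mono (inf_le_inf hsX hsY.le)
  have hkY : (k : ℕ∞) ≤ Y'.encard := by rw [← hYc]; exact hY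
  rcases X'.eq_empty_or_nonempty with hXem | hXne
  · have hk1 : k = 1 := by
      rcases hk with hk | hk
      · exact hk
      · exfalso
        rw [hXe, hXem, image_empty, insert_empty_eq, encard_singleton, hk] at hX
        exact absurd hX (by decide)
    have hYu : Y' = univ := by rw [← hu, hXem, empty_union]
    rw [hk1]
    refine one_le_of _ (u := q) ⟨hq, ?_⟩ hq0
    rw [← hsY]
    exact hmem _ fun e => subset_span ⟨e, by rw [hYu]; exact mem_univ _, rfl⟩
  have hX1 : (1 : ℕ∞) ≤ X'.encard := by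
    rw [one_le_encard_iff_nonempty]
    exact hXne
  have hY1 : (1 : ℕ∞) ≤ Y'.encard := by
    refine le_trans ?_ hkY
    rcases hk with hk | hk <;> rw [hk] <;> decide
  rcases hk with hk | hk
  · rw [hk]
    exact (hN 1 (Or.inl rfl) X' Y' hu hdd (by exact_mod_cast hX1) (by exact_mod_cast hY1)).trans hmono
  by_cases h2 : (2 : ℕ∞) ≤ X'.encard
  · rw [hk]
    exact (hN 2 (Or.inr rfl) X' Y' hu hdd (by exact_mod_cast h2)
      (by rw [hk] at hkY; exact_mod_cast hkY)).trans hmono
  · have h3 : X'.encard = 1 := by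
      rw [← one_add_one_eq_two, ENat.add_one_le_iff ENat.one_ne_top, not_lt] at h2
      exact le_antisymm h2 hX1
    obtain ⟨f, hf⟩ := encard_eq_one.1 h3
    have h4 := hN 1 (Or.inl rfl) X' Y' hu hdd (by exact_mod_cast hX1) (by exact_mod_cast hY1)
    obtain ⟨u, hu1, hu0⟩ : ∃ u ∈ (span (ZMod 2) (v '' X') ⊓
        span (ZMod 2) (v '' Y') : Submodule (ZMod 2) W), u ≠ 0 := by
      by_contra hcon
      push Not at hcon
      have h5 := (Submodule.eq_bot_iff _).2 hcon
      rw [h5, finrank_bot] at h4
      omega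
    rw [hf, image_singleton] at hu1
    obtain ⟨c, hc⟩ := mem_span_singleton.1 hu1.1
    have hc2 : ∀ c : ZMod 2, c = 0 ∨ c = 1 := by decide
    have hvf : v f = u := by
      rcases hc2 c with rfl | rfl
      · rw [zero_smul] at hc
        exact absurd hc.symm hu0
      · rwa [one_smul] at hc
    have hvY : v f ∈ span (ZMod 2) (v '' Y') := by
      rw [hvf]
      exact hu1.2
    have hall : ∀ e, v e ∈ span (ZMod 2) (v '' Y') := by
      intro e
      have he : e ∈ X' ∪ Y' := by rw [hu]; exact mem_univ _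
      rcases he with he | he
      · rw [hf, mem_singleton_iff] at he
        rw [he]
        exact hvY
      · exact subset_span ⟨e, he, rfl⟩
    rw [hk]
    refine two_le_of _ (u := q) (u' := v f) ⟨hq, ?_⟩ ⟨?_, ?_⟩ hq0 ?_ (hqv f)
    · rw [← hsY]
      exact hmem _ hall
    · exact hsX (subset_span ⟨f, by rw [hf]; exact mem_singleton _, rfl⟩)
    · rw [← hsY]
      exact hvY
    · rw [hvf]
      exact hu0

/-- a binary extension of a 3-connected binary matroid is 3-connected if the new element is no loop, no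
coloop and not parallel to another element -/
theorem ext_gen {E W : Type} [Finite E] [AddCommGroup W] [Module (ZMod 2) W]
    [Module.Finite (ZMod 2) W] (v : E → W) (q : W) (hq0 : q ≠ 0) (hqv : ∀ f, q ≠ v f)
    (hqs : q ∈ span (ZMod 2) (range v)) (hN : ThreeConn (linMat (ZMod 2) v)) :
    ThreeConn (linMat (ZMod 2) (exv v q)) := by
  rw [threeConn_lin] at hN ⊢
  intro k hk X Y hXY hd hX hY
  have h0 : none ∈ X ∪ Y := by rw [hXY]; exact mem_univ _
  rcases h0 with h0 | h0
  · exact egen_aux v q hq0 hqv hqs hN k hk X Y hXY hd hX hY h0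
  · rw [inf_comm]
    exact egen_aux v q hq0 hqv hqs hN k hk Y X (by rw [union_comm]; exact hXY) hd.symm hY hX h0

end Pool.Agent.H18.SG
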