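import Pool.Agent.H18.SG.Gr

/-!
# The new element at a vertex of degree three (MP_367fb1_co): both minors are graphic
-/

set_option autoImplicit false
set_option linter.unusedSectionVars false

namespace Pool.Agent.H18.SG

open Set Submodule Matroid

variable {V E : Type} [Fintype V] [DecidableEq V]

/-- `w` is a vertex of degree three; its edges are `a 0`, `a 1`, `a 2`, and the other ends `τ 0`, `τ 1`,
`τ 2` of these edges are different from each other and from `w` -/
structure Cubic (s t : E → V) (w : V) (τ : Fin 3 → V) (a : Fin 3 → E) : Prop where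
  inj : Function.Injective τ
  ne : ∀ i, τ i ≠ w
  sa : ∀ i, s (a i) = w
  ta : ∀ i, t (a i) = τ i
  all : ∀ e, s e = w ∨ t e = w → ∃ i, e = a i

/-- the sum of the vertices `w`, `τ 0`, `τ 1`, `τ 2` -/
def qv (w : V) (τ : Fin 3 → V) : V → ZMod 2 :=
  Pi.single w 1 + (Pi.single (τ 0) 1 + Pi.single (τ 1) 1 + Pi.single (τ 2) 1)

/-- the incidence vectors of the edges and, for the new element `none`, the vector `qv w τ` -/
def ev (s t : E → V) (w : V) (τ : Fin 3 → V) : Option E → V → ZMod 2
  | some e => vec (ZMod 2) s t e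
  | none => qv w τ

/-- the binary matroid on the edges of the graph and one more element `none` -/
def ext [Finite E] (s t : E → V) (w : V) (τ : Fin 3 → V) : Matroid (Option E) :=
  linMat (ZMod 2) (ev s t w τ)

variable {s t : E → V} {w : V} {τ : Fin 3 → V} {a : Fin 3 → E}

omit [Fintype V] [DecidableEq V] in
theorem Cubic.tne (h : Cubic s t w τ a) (e : E) : t e ≠ w := by
  intro h1
  obtain ⟨i, rfl⟩ := h.all e (Or.inr h1)
  exact h.ne i ((h.ta i).symm.trans h1)

theorem qv_w (h : Cubic s t w τ a) : qv w τ w = 1 := by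
  unfold qv
  simp [(h.ne 0).symm, (h.ne 1).symm, (h.ne 2).symm]

theorem qv_t (h : Cubic s t w τ a) (i : Fin 3) : qv w τ (τ i) = 1 := by
  unfold qv
  have h1 := h.ne i
  fin_cases i <;> simp [h.inj.eq_iff] <;> simp_all

theorem ext_indep [Finite E] {I : Set (Option E)} :
    (ext s t w τ).Indep I ↔ LinearIndepOn (ZMod 2) (ev s t w τ) I := linMat_indep

theorem ext_ground [Finite E] : (ext s t w τ).E = univ := rfl

/-- the edges of the graph, the new element as a loop -/
def sd (s : E → V) (w : V) : Option E → V := fun o => o.elim w s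

theorem ext_delete [Finite E] : Regular (ext s t w τ ＼ {none}) := by
  refine regular_of (sd s w) (sd t w) fun I => ?_
  rw [Matroid.delete_indep_iff, ext_indep, Matroid.delete_ground, ext_ground]
  have hI : none ∉ I → EqOn (ev s t w τ) (vec (ZMod 2) (sd s w) (sd t w)) I := by
    intro hn o ho
    cases o with
    | none => exact absurd ho hn
    | some e => rfl
  constructor
  · rintro ⟨h1, h2⟩
    have hn : none ∉ I := fun h => h2.notMem_of_mem_left h (mem_singleton _)
    refine ⟨fun o ho => ⟨mem_univ _, fun h3 => hn (by rw [mem_singleton_iff] at h3; rw [← h3]; exact ho)⟩, ?_⟩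
    exact h1.congr (hI hn)
  · rintro ⟨h1, h2⟩
    have hn : none ∉ I := fun h => (h1 h).2 (mem_singleton _)
    refine ⟨h2.congr (hI hn).symm, ?_⟩
    rw [Set.disjoint_singleton_right]
    exact hn

/-- the `Y-Δ` exchange at `w`: the edge to `τ i` becomes an edge between the two others -/
def r1 (τ : Fin 3 → V) (y : V) : V := if y = τ 0 then τ 1 else if y = τ 1 then τ 2 else τ 0

/-- see `r1` -/
def r2 (τ : Fin 3 → V) (y : V) : V := if y = τ 0 then τ 2 else if y = τ 1 then τ 0 else τ 1

/-- the ends of the edges after the exchange -/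
def sc (s t : E → V) (w : V) (τ : Fin 3 → V) : Option E → V :=
  fun o => o.elim w fun e => if s e = w then r1 τ (t e) else s e

/-- see `sc` -/
def tc (s t : E → V) (w : V) (τ : Fin 3 → V) : Option E → V :=
  fun o => o.elim w fun e => if s e = w then r2 τ (t e) else t e

theorem two0 : (2 : ZMod 2) = 0 := rfl

theorem ev_contr (h : Cubic s t w τ a) (e : E) :
    ev s t w τ (some e) - (LinearMap.proj w : (V → ZMod 2) →ₗ[ZMod 2] ZMod 2) (ev s t w τ (some e)) •
      ev s t w τ none = vec (ZMod 2) (sc s t w τ) (tc s t w τ) (some e) := by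
  have e1 : ev s t w τ (some e) = Pi.single (s e) 1 - Pi.single (t e) 1 := rfl
  have e2 : ev s t w τ none = qv w τ := rfl
  rw [e1, e2, LinearMap.proj_apply, Pi.sub_apply, Pi.single_eq_of_ne (h.tne e).symm, sub_zero]
  by_cases hs : s e = w
  · obtain ⟨i, rfl⟩ := h.all e (Or.inl hs)
    rw [h.sa, h.ta, Pi.single_eq_same, one_smul]
    unfold vec sc tc qv
    simp only [Option.elim_some, h.sa, h.ta, if_true]
    have hij : ∀ i j : Fin 3, i ≠ j → τ i ≠ τ j := fun i j hne h2 => hne (h.inj h2)
    funext y
    fin_cases i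
    · have q1 : r1 τ (τ 0) = τ 1 := if_pos rfl
      have q2 : r2 τ (τ 0) = τ 2 := if_pos rfl
      simp only [Fin.zero_eta, Fin.isValue, q1, q2, Pi.sub_apply, Pi.add_apply]
      linear_combination (-(Pi.single (τ 0) 1 : V → ZMod 2) y - (Pi.single (τ 1) 1 : V → ZMod 2) y) * two0
    · have q1 : r1 τ (τ 1) = τ 2 := by
        unfold r1
        rw [if_neg (hij 1 0 (by decide)), if_pos rfl]
      have q2 : r2 τ (τ 1) = τ 0 := by
        unfold r2
        rw [if_neg (hij 1 0 (by decide)), if_pos rfl]
      simp only [Fin.mk_one, Fin.isValue, q1, q2, Pi.sub_apply, Pi.add_apply]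
      linear_combination (-(Pi.single (τ 1) 1 : V → ZMod 2) y - (Pi.single (τ 2) 1 : V → ZMod 2) y) * two0
    · have q1 : r1 τ (τ 2) = τ 0 := by
        unfold r1
        rw [if_neg (hij 2 0 (by decide)), if_neg (hij 2 1 (by decide))]
      have q2 : r2 τ (τ 2) = τ 1 := by
        unfold r2
        rw [if_neg (hij 2 0 (by decide)), if_neg (hij 2 1 (by decide))]
      simp only [Fin.reduceFinMk, Fin.isValue, q1, q2, Pi.sub_apply, Pi.add_apply]
      linear_combination (-(Pi.single (τ 2) 1 : V → ZMod 2) y - (Pi.single (τ 0) 1 : V → ZMod 2) y) * two0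
  · rw [Pi.single_eq_of_ne (fun h2 => hs h2.symm), zero_smul, sub_zero]
    unfold vec sc tc
    simp only [Option.elim_some, if_neg hs]

theorem ext_contract [Finite E] (h : Cubic s t w τ a) : Regular (ext s t w τ ／ {none}) := by
  have hq : (LinearMap.proj w : (V → ZMod 2) →ₗ[ZMod 2] ZMod 2) (ev s t w τ none) = 1 := qv_w h
  have hne : ev s t w τ none ≠ 0 := by
    intro h2
    rw [h2, map_zero] at hq
    exact zero_ne_one hq
  have hind : (ext s t w τ).Indep {none} := by
    rw [ext_indep]
    exact (linearIndepOn_singleton_iff (ZMod 2)).2 hne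
  refine regular_of (sc s t w τ) (tc s t w τ) fun I => ?_
  rw [hind.contract_indep_iff, ext_indep, Matroid.contract_ground, ext_ground]
  have hc : none ∉ I → (LinearIndepOn (ZMod 2) (ev s t w τ) (insert none I) ↔
      LinearIndepOn (ZMod 2) (vec (ZMod 2) (sc s t w τ) (tc s t w τ)) I) := by
    intro hn
    rw [contr (ev s t w τ) _ hq hn]
    refine linearIndepOn_congr fun o ho => ?_
    cases o with
    | none => exact absurd ho hn
    | some e => exact ev_contr h e
  rw [Set.union_singleton, Set.disjoint_singleton_right]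
  constructor
  · rintro ⟨h1, h2⟩
    exact ⟨fun o ho => ⟨mem_univ _, fun h3 => h1 (by rw [mem_singleton_iff] at h3; rw [← h3]; exact ho)⟩,
      (hc h1).1 h2⟩
  · rintro ⟨h1, h2⟩
    have hn : none ∉ I := fun h => (h1 h).2 (mem_singleton _)
    exact ⟨hn, (hc hn).2 h2⟩

end Pool.Agent.H18.SG
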