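import Pool.Agent.H18.SG.Lin

/-!
# Graphs (MP_367fb1_co): the incidence vectors are independent over one field iff over every other

A graph with the vertices `V` and the edges `E` is given by the ends `s e`, `t e` of its edges.
-/

set_option autoImplicit false

namespace Pool.Agent.H18.SG

open Set Submodule

variable {V E : Type} [Fintype V] [DecidableEq V]

/-- the incidence vector of the edge `e`, oriented from `s e` to `t e` -/
def vec (K : Type) [Field K] (s t : E → V) (e : E) : V → K :=
  Pi.single (s e) 1 - Pi.single (t e) 1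

/-- the cycle matroid of a graph -/
def cyc [Finite E] (s t : E → V) : Matroid E := linMat (ZMod 2) (vec (ZMod 2) s t)

omit [Fintype V] in
theorem vec_contr (K : Type) [Field K] (s t : E → V) (e0 : E) (f : E) :
    vec K s t f - (-(LinearMap.proj (t e0) : (V → K) →ₗ[K] K)) (vec K s t f) • vec K s t e0 =
      vec K (fun e => if s e = t e0 then s e0 else s e) (fun e => if t e = t e0 then s e0 else t e) f := by
  have h : ∀ a : V, (Pi.single a 1 : V → K) + (Pi.single a 1 : V → K) (t e0) • vec K s t e0 =
      Pi.single (if a = t e0 then s e0 else a) 1 := by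
    intro a
    by_cases ha : a = t e0
    · rw [if_pos ha, ha, Pi.single_eq_same, one_smul]
      unfold vec
      abel
    · rw [if_neg ha, Pi.single_eq_of_ne (fun h => ha h.symm), zero_smul, add_zero]
  have h1 := h (s f)
  have h2 := h (t f)
  have h3 : vec K s t f - (-(LinearMap.proj (t e0) : (V → K) →ₗ[K] K)) (vec K s t f) • vec K s t e0 =
      ((Pi.single (s f) 1 : V → K) + (Pi.single (s f) 1 : V → K) (t e0) • vec K s t e0) -
      ((Pi.single (t f) 1 : V → K) + (Pi.single (t f) 1 : V → K) (t e0) • vec K s t e0) := by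
    rw [LinearMap.neg_apply, LinearMap.proj_apply, neg_smul, sub_neg_eq_add]
    have h4 : vec K s t f (t e0) = (Pi.single (s f) 1 : V → K) (t e0) - (Pi.single (t f) 1 : V → K) (t e0) := rfl
    rw [h4, sub_smul]
    have h5 : vec K s t f = Pi.single (s f) 1 - Pi.single (t f) 1 := rfl
    rw [h5]
    abel
  rw [h3, h1, h2]
  rfl

theorem gr_aux (K K' : Type) [Field K] [Field K'] (n : ℕ) : ∀ (s t : E → V) (I : Finset E),
    I.card = n → LinearIndepOn K (vec K s t) (I : Set E) →
      LinearIndepOn K' (vec K' s t) (I : Set E) := by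
  classical
  induction n with
  | zero =>
    intro s t I hI _
    rw [Finset.card_eq_zero.1 hI, Finset.coe_empty]
    exact linearIndepOn_empty _ _
  | succ n ih =>
    intro s t I hI h
    obtain ⟨e0, J, he, rfl, hJ⟩ := Finset.card_eq_succ.1 hI
    rw [Finset.coe_insert] at h ⊢
    have hne : s e0 ≠ t e0 := by
      intro h2
      have h3 := h.ne_zero (mem_insert e0 _)
      apply h3
      unfold vec
      rw [h2, sub_self]
    have hth : ∀ (L : Type) [Field L],
        (-(LinearMap.proj (t e0) : (V → L) →ₗ[L] L)) (vec L s t e0) = 1 := by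
      intro L _
      rw [LinearMap.neg_apply, LinearMap.proj_apply]
      unfold vec
      rw [Pi.sub_apply, Pi.single_eq_of_ne (fun h => hne h.symm), Pi.single_eq_same]
      ring
    have he' : e0 ∉ (J : Set E) := by exact_mod_cast he
    rw [contr (vec K s t) _ (hth K) he'] at h
    rw [contr (vec K' s t) _ (hth K') he']
    simp only [vec_contr] at h ⊢
    exact ih _ _ J hJ h

theorem gr [Finite E] (K K' : Type) [Field K] [Field K'] (s t : E → V) (I : Set E) :
    LinearIndepOn K (vec K s t) I ↔ LinearIndepOn K' (vec K' s t) I := by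
  have h1 : ((Set.toFinite I).toFinset : Set E) = I := (Set.toFinite I).coe_toFinset
  constructor
  · intro h
    have h2 := gr_aux K K' _ s t (Set.toFinite I).toFinset rfl (by rw [h1]; exact h)
    rwa [h1] at h2
  · intro h
    have h2 := gr_aux K' K _ s t (Set.toFinite I).toFinset rfl (by rw [h1]; exact h)
    rwa [h1] at h2

/-- graphic matroids are regular -/
theorem regular_of [Finite E] (s t : E → V) {M : Matroid E}
    (h : ∀ I : Set E, M.Indep I ↔ I ⊆ M.E ∧ LinearIndepOn (ZMod 2) (vec (ZMod 2) s t) I) :
    Regular M := fun K _ => isRepr_of (vec K s t) fun I => by rw [h I, gr (ZMod 2) K s t I]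

/-- a nonzero vector in a subspace -/
theorem one_le_of {W : Type} [AddCommGroup W] [Module (ZMod 2) W] [Module.Finite (ZMod 2) W]
    (P : Submodule (ZMod 2) W) {u : W} (hu : u ∈ P) (h0 : u ≠ 0) : 1 ≤ Module.finrank (ZMod 2) P := by
  rw [Nat.one_le_iff_ne_zero]
  intro h
  have h1 := Submodule.finrank_eq_zero.1 h
  rw [h1, Submodule.mem_bot] at hu
  exact h0 hu

/-- two different nonzero vectors in a subspace over the field with two elements -/
theorem two_le_of {W : Type} [AddCommGroup W] [Module (ZMod 2) W] [Module.Finite (ZMod 2) W]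
    (P : Submodule (ZMod 2) W) {u u' : W} (hu : u ∈ P) (hu' : u' ∈ P) (h0 : u ≠ 0) (h0' : u' ≠ 0)
    (hne : u ≠ u') : 2 ≤ Module.finrank (ZMod 2) P := by
  by_contra hcon
  have h1 : Module.finrank (ZMod 2) P ≤ 1 := by omega
  obtain ⟨v, hv⟩ := finrank_le_one_iff.1 h1
  have h2 : ∀ c : ZMod 2, c = 0 ∨ c = 1 := by decide
  obtain ⟨c, hc⟩ := hv ⟨u, hu⟩
  obtain ⟨c', hc'⟩ := hv ⟨u', hu'⟩
  rcases h2 c with rfl | rfl
  · rw [zero_smul] at hc
    exact h0 (congrArg Subtype.val hc.symm)
  rcases h2 c' with rfl | rfl
  · rw [zero_smul] at hc'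
    exact h0' (congrArg Subtype.val hc'.symm)
  rw [one_smul] at hc hc'
  exact hne (congrArg Subtype.val (hc.symm.trans hc'))

end Pool.Agent.H18.SG
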