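import Mathlib

/-!
# Linear matroids (MP_367fb1_co): definitions and general facts

`linMat K v` is the matroid of a family of vectors (as in `Pool/Agent/H59/Ray/Lin.lean`), `IsRepr K M`:
`M` is representable over `K`, `Regular M`: over every field, `ThreeConn M`: 3-connected in Tutte's sense.
-/

set_option autoImplicit false

namespace Pool.Agent.H18.SG

open Set Submodule

/-- `M` is representable over the field `K` -/
def IsRepr {α : Type} (K : Type) [Field K] (M : Matroid α) : Prop :=
  ∃ (n : ℕ) (v : α → Fin n → K), ∀ I : Set α, M.Indep I ↔ I ⊆ M.E ∧ LinearIndepOn K v I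

/-- representable over every field -/
def Regular {α : Type} (M : Matroid α) : Prop := ∀ (K : Type) [Field K], IsRepr K M

/-- 3-connected in Tutte's sense: no `k`-separation for `k = 1, 2` -/
def ThreeConn {α : Type} (M : Matroid α) : Prop :=
  ∀ k : ℕ, k = 1 ∨ k = 2 → ∀ X Y : Set α, X ∪ Y = M.E → Disjoint X Y →
    (k : ℕ∞) ≤ X.encard → (k : ℕ∞) ≤ Y.encard → M.eRank + k ≤ M.eRk X + M.eRk Y

/-- exchange -/
theorem lin_aug {α K V : Type} [Finite α] [Field K] [AddCommGroup V] [Module K V] (v : α → V)
    {I J : Set α} (hI : LinearIndepOn K v I) (hJ : LinearIndepOn K v J) (h : I.ncard < J.ncard) :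
    ∃ e ∈ J, e ∉ I ∧ LinearIndepOn K v (insert e I) := by
  classical
  by_contra hcon
  push Not at hcon
  have : Fintype J := Fintype.ofFinite J
  have : Fintype (v '' I) := Fintype.ofFinite _
  have h1 : Set.range (fun j : J => v j) ⊆ Submodule.span K (v '' I) := by
    rintro x ⟨j, rfl⟩
    by_cases hj : (j : α) ∈ I
    · exact Submodule.subset_span ⟨j, hj, rfl⟩
    · by_contra hx
      exact hcon j j.2 hj ((linearIndepOn_insert hj).2 ⟨hI, hx⟩)
  have h2 := linearIndependent_le_span_aux' (fun j : J => v j) hJ (v '' I) h1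
  have h3 : Fintype.card J = J.ncard := by
    rw [Set.ncard_eq_toFinset_card' J, Set.toFinset_card]
  have h4 : Fintype.card (v '' I) ≤ I.ncard := by
    rw [← Set.toFinset_card, ← Set.ncard_eq_toFinset_card']
    exact Set.ncard_image_le (Set.toFinite I)
  omega

/-- the linear matroid of a family of vectors: a set is independent iff its vectors are linearly
independent -/
def linMat {α V : Type} (K : Type) [Finite α] [Field K] [AddCommGroup V] [Module K V]
    (v : α → V) : Matroid α :=
  (IndepMatroid.ofFinite (E := Set.univ) Set.finite_univ (fun I => LinearIndepOn K v I)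
    (linearIndepOn_empty K v) (fun _ _ hJ h => hJ.mono h) (fun _ _ hI hJ h => lin_aug v hI hJ h)
    fun I _ => Set.subset_univ I).matroid

section

variable {α V K : Type} [Finite α] [Field K] [AddCommGroup V] [Module K V]

theorem linMat_indep {v : α → V} {I : Set α} : (linMat K v).Indep I ↔ LinearIndepOn K v I := by
  unfold linMat
  rw [IndepMatroid.matroid_indep_iff, IndepMatroid.ofFinite_indep]

theorem linMat_ground {v : α → V} : (linMat K v).E = Set.univ := rfl

end

/-- representability in a finite dimensional space -/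
theorem isRepr_of {α V K : Type} [Field K] [AddCommGroup V] [Module K V] [Module.Finite K V]
    {M : Matroid α} (v : α → V) (h : ∀ I : Set α, M.Indep I ↔ I ⊆ M.E ∧ LinearIndepOn K v I) :
    IsRepr K M := by
  refine ⟨Module.finrank K V, fun a => (Module.finBasis K V).equivFun (v a), fun I => ?_⟩
  rw [h I]
  refine and_congr_right fun _ => ?_
  exact (LinearMap.linearIndependent_iff
    ((Module.finBasis K V).equivFun : V →ₗ[K] (Fin (Module.finrank K V) → K))
    (LinearEquiv.ker _)).symm

/-- contraction of one vector -/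
theorem contr {α K W : Type} [Field K] [AddCommGroup W] [Module K W] (v : α → W) (θ : W →ₗ[K] K)
    {e : α} (h1 : θ (v e) = 1) {J : Set α} (he : e ∉ J) :
    LinearIndepOn K v (insert e J) ↔ LinearIndepOn K (fun f => v f - θ (v f) • v e) J := by
  obtain ⟨L, hLd⟩ : ∃ L : W →ₗ[K] W, L = LinearMap.id - θ.smulRight (v e) := ⟨_, rfl⟩
  have hLv : ∀ x, L x = x - θ x • v e := fun x => by simp [hLd]
  have hcomp : (fun f => v f - θ (v f) • v e) = L ∘ v := by
    funext f
    exact (hLv (v f)).symm
  rw [hcomp]
  constructor
  · intro h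
    have hJ : LinearIndepOn K v J := h.mono (subset_insert _ _)
    have hn : v e ∉ span K (v '' J) := ((linearIndepOn_insert he).1 h).2
    refine LinearIndependent.map hJ ?_
    rw [Submodule.disjoint_def]
    intro x hx hx0
    rw [LinearMap.mem_ker, hLv, sub_eq_zero] at hx0
    by_contra hne
    have hθ : θ x ≠ 0 := by
      intro h0
      rw [h0, zero_smul] at hx0
      exact hne hx0
    apply hn
    have h2 : v e = (θ x)⁻¹ • x := by
      rw [eq_inv_smul_iff₀ hθ]
      exact hx0.symm
    rw [h2]
    refine Submodule.smul_mem _ _ ?_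
    rw [Set.image_eq_range]
    exact hx
  · intro h
    have hJ : LinearIndepOn K v J := LinearIndependent.of_comp L h
    refine (linearIndepOn_insert he).2 ⟨hJ, fun hmem => ?_⟩
    obtain ⟨l, hl, hle⟩ := (Finsupp.mem_span_image_iff_linearCombination K).1 hmem
    have h2 : Finsupp.linearCombination K (L ∘ v) l = 0 := by
      rw [← Finsupp.apply_linearCombination, hle, hLv, h1, one_smul, sub_self]
    have h3 := (linearIndepOn_iff.1 h) l hl h2
    rw [h3, map_zero] at hle
    rw [← hle, map_zero] at h1
    exact zero_ne_one h1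

/-- two families with the same independent sets have the same closures -/
theorem mem_of_same {α K K' W W' : Type} [Field K] [AddCommGroup W] [Module K W] [Field K']
    [AddCommGroup W'] [Module K' W'] (v : α → W) (v' : α → W')
    (h : ∀ I : Set α, LinearIndepOn K v I ↔ LinearIndepOn K' v' I) (S : Set α) (x : α)
    (hx : v x ∈ span K (v '' S)) : v' x ∈ span K' (v' '' S) := by
  by_contra hcon
  obtain ⟨b, hbS, -, hsp, hli⟩ :=
    exists_linearIndepOn_extension (linearIndepOn_empty K' v') (empty_subset S)
  have hle : span K' (v' '' b) ≤ span K' (v' '' S) := span_mono (image_mono hbS)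
  have hxb : v' x ∉ span K' (v' '' b) := fun h2 => hcon (hle h2)
  have hxnb : x ∉ b := fun h2 => hxb (subset_span ⟨x, h2, rfl⟩)
  have h3 : LinearIndepOn K v (insert x b) := (h _).2 ((linearIndepOn_insert hxnb).2 ⟨hli, hxb⟩)
  have h4 := ((linearIndepOn_insert hxnb).1 h3).2
  apply h4
  refine (span_le.2 ?_) hx
  rintro _ ⟨y, hy, rfl⟩
  by_cases hyb : y ∈ b
  · exact subset_span ⟨y, hyb, rfl⟩
  · by_contra h5
    have h6 : LinearIndepOn K v (insert y b) := (linearIndepOn_insert hyb).2 ⟨(h b).2 hli, h5⟩
    exact ((linearIndepOn_insert hyb).1 ((h _).1 h6)).2 (hsp ⟨y, hy, rfl⟩)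

/-- the rank of a set in a linear matroid -/
theorem eRk_lin {α V K : Type} [Finite α] [Field K] [AddCommGroup V] [Module K V]
    [Module.Finite K V] (v : α → V) (X : Set α) :
    (linMat K v).eRk X = (Module.finrank K (span K (v '' X)) : ℕ∞) := by
  classical
  obtain ⟨b, hb, -, hsp, hli⟩ :=
    exists_linearIndepOn_extension (linearIndepOn_empty K v) (empty_subset X)
  have hbas : (linMat K v).IsBasis b X := by
    refine Matroid.Indep.isBasis_of_forall_insert (linMat_indep.2 hli) hb fun e he => ?_
    rw [Matroid.dep_iff, linMat_indep, linMat_ground]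
    refine ⟨fun h => ?_, subset_univ _⟩
    exact ((linearIndepOn_insert he.2).1 h).2 (hsp ⟨e, he.1, rfl⟩)
  have hspan : span K (v '' X) = span K (v '' b) :=
    le_antisymm (span_le.2 hsp) (span_mono (image_mono hb))
  rw [hbas.eRk_eq_encard, hspan]
  have : Fintype b := Fintype.ofFinite b
  have h1 : Module.finrank K (span K (range fun j : b => v j)) = Fintype.card b :=
    finrank_span_eq_card hli
  rw [Set.image_eq_range, h1, ← Set.toFinite b |>.cast_ncard_eq]
  congr 1
  rw [Set.ncard_eq_toFinset_card' b, Set.toFinset_card]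

/-- 3-connectedness of a linear matroid in terms of the intersection of the spans -/
theorem threeConn_lin {α V K : Type} [Finite α] [Field K] [AddCommGroup V] [Module K V]
    [Module.Finite K V] (v : α → V) : ThreeConn (linMat K v) ↔
    ∀ k : ℕ, k = 1 ∨ k = 2 → ∀ X Y : Set α, X ∪ Y = univ → Disjoint X Y →
      (k : ℕ∞) ≤ X.encard → (k : ℕ∞) ≤ Y.encard →
      k ≤ Module.finrank K (span K (v '' X) ⊓ span K (v '' Y) : Submodule K V) := by
  have key : ∀ (k : ℕ) (X Y : Set α), X ∪ Y = univ →
      ((linMat K v).eRank + k ≤ (linMat K v).eRk X + (linMat K v).eRk Y ↔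
        k ≤ Module.finrank K (span K (v '' X) ⊓ span K (v '' Y) : Submodule K V)) := by
    intro k X Y hXY
    have h1 : (linMat K v).eRank = (Module.finrank K (span K (v '' (X ∪ Y))) : ℕ∞) := by
      rw [hXY, ← eRk_lin, Matroid.eRank_def, linMat_ground]
    have h2 := Submodule.finrank_sup_add_finrank_inf_eq (span K (v '' X)) (span K (v '' Y))
    have h3 : span K (v '' X) ⊔ span K (v '' Y) = span K (v '' (X ∪ Y)) := by
      rw [image_union, span_union]
    rw [h3] at h2
    rw [h1, eRk_lin, eRk_lin]
    norm_cast
    omega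
  constructor
  · intro h k hk X Y hXY hd hX hY
    exact (key k X Y hXY).1 (h k hk X Y (by rw [hXY, linMat_ground]) hd hX hY)
  · intro h k hk X Y hXY hd hX hY
    rw [linMat_ground] at hXY
    exact (key k X Y hXY).2 (h k hk X Y hXY hd hX hY)

end Pool.Agent.H18.SG
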