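import Pool.Agent.H18.SG.Ext

/-!
# The extension is 3-connected if the cycle matroid is (MP_367fb1_co)
-/

set_option autoImplicit false
set_option linter.unusedSectionVars false

namespace Pool.Agent.H18.SG

open Set Submodule Matroid

variable {V E : Type} [Fintype V] [DecidableEq V]
variable {s t : E → V} {w : V} {τ : Fin 3 → V} {a : Fin 3 → E}

theorem qv_sum (h : Cubic s t w τ a) :
    qv w τ = vec (ZMod 2) s t (a 0) + vec (ZMod 2) s t (a 1) + vec (ZMod 2) s t (a 2) := by
  unfold vec qv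
  simp only [h.sa, h.ta]
  funext y
  simp only [Pi.add_apply, Pi.sub_apply]
  linear_combination (-(Pi.single w 1 : V → ZMod 2) y + (Pi.single (τ 0) 1 : V → ZMod 2) y +
    (Pi.single (τ 1) 1 : V → ZMod 2) y + (Pi.single (τ 2) 1 : V → ZMod 2) y) * two0

theorem qv_ne (h : Cubic s t w τ a) : qv w τ ≠ 0 := by
  intro h2
  have h3 := qv_w h
  rw [h2] at h3
  exact zero_ne_one h3

theorem vec_apply_ne (f : E) (y : V) (h : vec (ZMod 2) s t f y ≠ 0) : y = s f ∨ y = t f := by
  by_contra hcon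
  push Not at hcon
  apply h
  unfold vec
  rw [Pi.sub_apply, Pi.single_eq_of_ne hcon.1, Pi.single_eq_of_ne hcon.2, sub_zero]

theorem qv_ne_vec (h : Cubic s t w τ a) (f : E) : qv w τ ≠ vec (ZMod 2) s t f := by
  intro h2
  have h1 : (1 : ZMod 2) ≠ 0 := one_ne_zero
  have k0 := vec_apply_ne (s := s) (t := t) f w (by rw [← h2, qv_w h]; exact h1)
  have k1 := vec_apply_ne (s := s) (t := t) f (τ 0) (by rw [← h2, qv_t h]; exact h1)
  have k2 := vec_apply_ne (s := s) (t := t) f (τ 1) (by rw [← h2, qv_t h]; exact h1)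
  have n0 := h.ne 0
  have n1 := h.ne 1
  have n01 : τ 0 ≠ τ 1 := fun h3 => absurd (h.inj h3) (by decide)
  rcases k0 with k0 | k0 <;> rcases k1 with k1 | k1 <;> rcases k2 with k2 | k2
  · exact n0 (k1.trans k0.symm)
  · exact n0 (k1.trans k0.symm)
  · exact n1 (k2.trans k0.symm)
  · exact n01 (k1.trans k2.symm)
  · exact n01 (k1.trans k2.symm)
  · exact n1 (k2.trans k0.symm)
  · exact n0 (k1.trans k0.symm)
  · exact n0 (k1.trans k0.symm)

theorem qv_mem (h : Cubic s t w τ a) {P : Submodule (ZMod 2) (V → ZMod 2)}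
    (hP : ∀ e, vec (ZMod 2) s t e ∈ P) : qv w τ ∈ P := by
  rw [qv_sum h]
  exact P.add_mem (P.add_mem (hP _) (hP _)) (hP _)

theorem ext_aux [Finite E] (h : Cubic s t w τ a)
    (hN : ∀ k : ℕ, k = 1 ∨ k = 2 → ∀ X Y : Set E, X ∪ Y = univ → Disjoint X Y →
      (k : ℕ∞) ≤ X.encard → (k : ℕ∞) ≤ Y.encard → k ≤ Module.finrank (ZMod 2)
        (span (ZMod 2) (vec (ZMod 2) s t '' X) ⊓ span (ZMod 2) (vec (ZMod 2) s t '' Y) :
          Submodule (ZMod 2) (V → ZMod 2)))
    (k : ℕ) (hk : k = 1 ∨ k = 2) (X Y : Set (Option E)) (hXY : X ∪ Y = univ) (hd : Disjoint X Y)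
    (hX : (k : ℕ∞) ≤ X.encard) (hY : (k : ℕ∞) ≤ Y.encard) (h0 : none ∈ X) :
    k ≤ Module.finrank (ZMod 2) (span (ZMod 2) (ev s t w τ '' X) ⊓
      span (ZMod 2) (ev s t w τ '' Y) : Submodule (ZMod 2) (V → ZMod 2)) := by
  obtain ⟨X', hX'⟩ : ∃ X' : Set E, X' = some ⁻¹' X := ⟨_, rfl⟩
  obtain ⟨Y', hY'⟩ : ∃ Y' : Set E, Y' = some ⁻¹' Y := ⟨_, rfl⟩
  have hu : X' ∪ Y' = univ := by
    rw [hX', hY', ← preimage_union, hXY, preimage_univ]
  have hdd : Disjoint X' Y' := by
    rw [hX', hY']
    exact hd.preimage _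
  have hnY : none ∉ Y := fun h2 => hd.notMem_of_mem_left h0 h2
  have hYe : Y = some '' Y' := by
    ext o
    constructor
    · intro ho
      cases o with
      | none => exact absurd ho hnY
      | some e => exact ⟨e, by rw [hY']; exact ho, rfl⟩
    · rintro ⟨e, he, rfl⟩
      rw [hY'] at he
      exact he
  have hYc : Y.encard = Y'.encard := by
    rw [hYe, (Option.some_injective E).encard_image]
  have hXe : X = insert none (some '' X') := by
    ext o
    constructor
    · intro ho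
      cases o with
      | none => exact mem_insert _ _
      | some e => exact mem_insert_of_mem _ ⟨e, by rw [hX']; exact ho, rfl⟩
    · rintro (rfl | ⟨e, he, rfl⟩)
      · exact h0
      · rw [hX'] at he
        exact he
  have himg : ∀ Z : Set E, ev s t w τ '' (some '' Z) = vec (ZMod 2) s t '' Z := by
    intro Z
    rw [image_image]
    rfl
  have hsX : span (ZMod 2) (vec (ZMod 2) s t '' X') ≤ span (ZMod 2) (ev s t w τ '' X) := by
    rw [← himg]
    exact span_mono (image_mono (by rw [hXe]; exact subset_insert _ _))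
  have hsY : span (ZMod 2) (vec (ZMod 2) s t '' Y') = span (ZMod 2) (ev s t w τ '' Y) := by
    rw [← himg, ← hYe]
  have hq : qv w τ ∈ span (ZMod 2) (ev s t w τ '' X) := subset_span ⟨none, h0, rfl⟩
  have hmono : Module.finrank (ZMod 2)
      (span (ZMod 2) (vec (ZMod 2) s t '' X') ⊓ span (ZMod 2) (vec (ZMod 2) s t '' Y') :
        Submodule (ZMod 2) (V → ZMod 2)) ≤ Module.finrank (ZMod 2)
      (span (ZMod 2) (ev s t w τ '' X) ⊓ span (ZMod 2) (ev s t w τ '' Y) :
        Submodule (ZMod 2) (V → ZMod 2)) :=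
    Submodule.finrank_mono (inf_le_inf hsX hsY.le)
  have hkY : (k : ℕ∞) ≤ Y'.encard := by rw [← hYc]; exact hY
  rcases X'.eq_empty_or_nonempty with hXem | hXne
  · -- the set `X` is the new element only
    have hk1 : k = 1 := by
      rcases hk with hk | hk
      · exact hk
      · exfalso
        rw [hXe, hXem, image_empty, insert_empty_eq, encard_singleton, hk] at hX
        exact absurd hX (by decide)
    have hYu : Y' = univ := by rw [← hu, hXem, empty_union]
    rw [hk1]
    refine one_le_of _ (u := qv w τ) ⟨hq, ?_⟩ (qv_ne h)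
    rw [← hsY]
    exact qv_mem h fun e => subset_span ⟨e, by rw [hYu]; exact mem_univ _, rfl⟩
  have hX1 : (1 : ℕ∞) ≤ X'.encard := by
    rw [one_le_encard_iff_nonempty]
    exact hXne
  have hY1 : (1 : ℕ∞) ≤ Y'.encard := by
    refine le_trans ?_ hkY
    rcases hk with hk | hk <;> rw [hk] <;> decide
  rcases hk with hk | hk
  · rw [hk]
    exact (hN 1 (Or.inl rfl) X' Y' hu hdd (by exact_mod_cast hX1) (by exact_mod_cast hY1)).trans hmono
  by_cases h2 : (2 : ℕ∞) ≤ X'.encard
  · rw [hk]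
    exact (hN 2 (Or.inr rfl) X' Y' hu hdd (by exact_mod_cast h2)
      (by rw [hk] at hkY; exact_mod_cast hkY)).trans hmono
  · have h3 : X'.encard = 1 := by
      rw [← one_add_one_eq_two, ENat.add_one_le_iff ENat.one_ne_top, not_lt] at h2
      exact le_antisymm h2 hX1
    obtain ⟨f, hf⟩ := encard_eq_one.1 h3
    have h4 := hN 1 (Or.inl rfl) X' Y' hu hdd (by exact_mod_cast hX1) (by exact_mod_cast hY1)
    obtain ⟨u, hu1, hu0⟩ : ∃ u ∈ (span (ZMod 2) (vec (ZMod 2) s t '' X') ⊓
        span (ZMod 2) (vec (ZMod 2) s t '' Y') : Submodule (ZMod 2) (V → ZMod 2)), u ≠ 0 := by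
      by_contra hcon
      push Not at hcon
      have h5 := (Submodule.eq_bot_iff _).2 hcon
      rw [h5, finrank_bot] at h4
      omega
    rw [hf, image_singleton] at hu1
    obtain ⟨c, hc⟩ := mem_span_singleton.1 hu1.1
    have hc2 : ∀ c : ZMod 2, c = 0 ∨ c = 1 := by decide
    have hvf : vec (ZMod 2) s t f = u := by
      rcases hc2 c with rfl | rfl
      · rw [zero_smul] at hc
        exact absurd hc.symm hu0
      · rwa [one_smul] at hc
    have hvY : vec (ZMod 2) s t f ∈ span (ZMod 2) (vec (ZMod 2) s t '' Y') := by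
      rw [hvf]
      exact hu1.2
    have hall : ∀ e, vec (ZMod 2) s t e ∈ span (ZMod 2) (vec (ZMod 2) s t '' Y') := by
      intro e
      have he : e ∈ X' ∪ Y' := by rw [hu]; exact mem_univ _
      rcases he with he | he
      · rw [hf, mem_singleton_iff] at he
        rw [he]
        exact hvY
      · exact subset_span ⟨e, he, rfl⟩
    rw [hk]
    refine two_le_of _ (u := qv w τ) (u' := vec (ZMod 2) s t f) ⟨hq, ?_⟩ ⟨?_, ?_⟩ (qv_ne h) ?_
      (qv_ne_vec h f)
    · rw [← hsY]
      exact qv_mem h hall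
    · exact hsX (subset_span ⟨f, by rw [hf]; exact mem_singleton _, rfl⟩)
    · rw [← hsY]
      exact hvY
    · rw [hvf]
      exact hu0

theorem ext_conn [Finite E] (h : Cubic s t w τ a) (hN : ThreeConn (cyc s t)) :
    ThreeConn (ext s t w τ) := by
  unfold cyc at hN
  unfold ext
  rw [threeConn_lin] at hN ⊢
  intro k hk X Y hXY hd hX hY
  have h0 : none ∈ X ∪ Y := by rw [hXY]; exact mem_univ _
  rcases h0 with h0 | h0
  · exact ext_aux h hN k hk X Y hXY hd hX hY h0
  · rw [inf_comm]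
    exact ext_aux h hN k hk Y X (by rw [union_comm]; exact hXY) hd.symm hY hX h0

end Pool.Agent.H18.SG
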